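import Pool.Agent.H614R3.PI.C2

/-! Proof of `TaskD4` (project H572-PI). -/

set_option autoImplicit false

namespace Pool.Agent.H614R3.PI

open Pool.Agent.H572R4 Pool.Agent.Helper446.Defs Pool.Agent.Helper446.CB

theorem xp_ne_zz (j : ℕ) : xp j ≠ zz := by
  intro h
  have h1 := congrFun h j
  simp [xp, zz] at h1

theorem inf_eq_bot_iff {B : EPi} (c d : LB B) : c ⊓ d = ⊥ ↔ c.1 ∩ d.1 = B.1 :=
  ⟨fun h => congrArg Subtype.val h, fun h => Subtype.ext h⟩

theorem sup_eq_top_iff {B : EPi} (c d : LB B) : c ⊔ d = ⊤ ↔ c.1 ∪ d.1 = Set.univ :=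
  ⟨fun h => congrArg Subtype.val h, fun h => Subtype.ext h⟩

theorem cpl_inf {B : EPi} {c f f' : LB B} (hc : Cpl c) (h1 : f ⊓ f' = ⊥) (h2 : f ⊔ f' = ⊤) :
    Cpl (c ⊓ f) := by
  obtain ⟨d, h3, h4⟩ := hc
  rw [inf_eq_bot_iff] at h1 h3
  rw [sup_eq_top_iff] at h2 h4
  refine ⟨d ⊔ f', (inf_eq_bot_iff _ _).2 ?_, (sup_eq_top_iff _ _).2 ?_⟩
  · show (c.1 ∩ f.1) ∩ (d.1 ∪ f'.1) = B.1
    apply Set.Subset.antisymm
    · rintro x ⟨⟨hx1, hx2⟩, hx3 | hx3⟩
      · rw [← h3]; exact ⟨hx1, hx3⟩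
      · rw [← h1]; exact ⟨hx2, hx3⟩
    · intro x hx
      exact ⟨⟨c.2.2 hx, f.2.2 hx⟩, Or.inl (d.2.2 hx)⟩
  · show (c.1 ∩ f.1) ∪ (d.1 ∪ f'.1) = Set.univ
    apply Set.eq_univ_of_forall
    intro x
    have a1 : x ∈ c.1 ∪ d.1 := by rw [h4]; trivial
    have a2 : x ∈ f.1 ∪ f'.1 := by rw [h2]; trivial
    rcases a1 with a1 | a1
    · rcases a2 with a2 | a2
      · exact Or.inl ⟨a1, a2⟩
      · exact Or.inr (Or.inr a2)
    · exact Or.inr (Or.inl a1)

theorem rc_inf {B : EPi} (c f : LB B) : Rc (c ⊓ f).1 = Rc c.1 ∩ Rc f.1 := rfl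

theorem rc_sup {B : EPi} (c f : LB B) : Rc (c ⊔ f).1 = Rc c.1 ∪ Rc f.1 := rfl

theorem taskD4 : TaskD4 := by
  intro hD1 hD2 B hB V A hVA k
  induction k with
  | zero =>
    intro c hc
    show ¬ Good c (V 0) ↔ ¬ CR (Rc c.1 ∩ A 0)
    rw [hVA 0 c hc]
  | succ k ih =>
    intro c hc
    have e1 : (∃ c', Cpl c' ∧ c' ≤ c ∧ Good c' (V (k + 1)) ∧ TT V k c') ↔
        (∃ R', CR R' ∧ R' ⊆ Rc c.1 ∧ CR (R' ∩ A (k + 1)) ∧ TW A k R') := by
      constructor
      · rintro ⟨c', h1, h2, h3, h4⟩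
        exact ⟨Rc c'.1, hD1 B hB c' h1, fun j hj => h2 hj, (hVA _ c' h1).1 h3, (ih c' h1).1 h4⟩
      · rintro ⟨R', h1, h2, h3, h4⟩
        obtain ⟨f, f', g1, g2, g3, g4⟩ := hD2 B hB R' h1
        have hcf := cpl_inf hc g1 g2
        have hR : Rc (c ⊓ f).1 = R' := by
          rw [rc_inf, g3]; exact Set.inter_eq_right.2 h2
        exact ⟨c ⊓ f, hcf, inf_le_left, (hVA _ _ hcf).2 (by rw [hR]; exact h3),
          (ih _ hcf).2 (by rw [hR]; exact h4)⟩
    have e2 : (∀ c' c'', Cpl c' → Cpl c'' → c' ⊓ c'' = ⊥ → c' ⊔ c'' = c →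
        Good c' (V (k + 1)) → TT V k c'') ↔
        (∀ R' R'', CR R' → CR R'' → Disjoint R' R'' → R' ∪ R'' = Rc c.1 →
        CR (R' ∩ A (k + 1)) → TW A k R'') := by
      constructor
      · intro h R' R'' h1 h2 h3 h4 h5
        obtain ⟨f, f', g1, g2, g3, g4⟩ := hD2 B hB R' h1
        have hcf := cpl_inf hc g1 g2
        have hcf' : Cpl (c ⊓ f') := cpl_inf hc (by rw [inf_comm]; exact g1)
          (by rw [sup_comm]; exact g2)
        have hR : Rc (c ⊓ f).1 = R' := by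
          rw [rc_inf, g3, ← h4]
          exact Set.inter_eq_right.2 Set.subset_union_left
        have hR' : Rc (c ⊓ f').1 = R'' := by
          rw [rc_inf, g4, ← h4]
          ext j
          constructor
          · rintro ⟨hj | hj, hj'⟩
            · exact absurd hj hj'
            · exact hj
          · intro hj
            exact ⟨Or.inr hj, fun hj' => Set.disjoint_left.1 h3 hj' hj⟩
        have hb : (c ⊓ f) ⊓ (c ⊓ f') = ⊥ := by
          rw [inf_eq_bot_iff] at g1 ⊢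
          show (c.1 ∩ f.1) ∩ (c.1 ∩ f'.1) = B.1
          apply Set.Subset.antisymm
          · rintro x ⟨⟨hx1, hx2⟩, hx3, hx4⟩
            rw [← g1]; exact ⟨hx2, hx4⟩
          · intro x hx
            exact ⟨⟨c.2.2 hx, f.2.2 hx⟩, c.2.2 hx, f'.2.2 hx⟩
        have ht : (c ⊓ f) ⊔ (c ⊓ f') = c := by
          rw [sup_eq_top_iff] at g2
          apply Subtype.ext
          show (c.1 ∩ f.1) ∪ (c.1 ∩ f'.1) = c.1
          rw [← Set.inter_union_distrib_left, g2, Set.inter_univ]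
        have := h _ _ hcf hcf' hb ht ((hVA _ _ hcf).2 (by rw [hR]; exact h5))
        have := (ih _ hcf').1 this
        rwa [hR'] at this
      · intro h c' c'' h1 h2 h3 h4 h5
        refine (ih c'' h2).2 (h (Rc c'.1) (Rc c''.1) (hD1 B hB c' h1) (hD1 B hB c'' h2) ?_ ?_
          ((hVA _ c' h1).1 h5))
        · rw [Set.disjoint_left]
          intro j hj hj'
          rw [inf_eq_bot_iff] at h3
          have h6 : xp j ∈ B.1 := by rw [← h3]; exact ⟨hj, hj'⟩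
          rw [hB] at h6
          exact xp_ne_zz j h6
        · rw [← rc_sup, h4]
    show ((Even k → _) ∧ (¬ Even k → _)) ↔ ((Even k → _) ∧ (¬ Even k → _))
    exact and_congr (imp_congr_right fun _ => e1) (imp_congr_right fun _ => e2)

end Pool.Agent.H614R3.PI
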