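import Pool.Agent.H572R4.Stmts

/-! Proof of `TaskF1` (project H572-PI). -/

set_option autoImplicit false

namespace Pool.Agent.H614R3.PI

open Pool.Agent.H572R4

section
variable {L M : Type} [Lattice L] [BoundedOrder L] [Lattice M] [BoundedOrder M]

theorem cpl_map (Φ : L ≃o M) {c : L} (h : Cpl c) : Cpl (Φ c) := by
  obtain ⟨d, h1, h2⟩ := h
  exact ⟨Φ d, by rw [← map_inf, h1, map_bot], by rw [← map_sup, h2, map_top]⟩

theorem cpl_iff (Φ : L ≃o M) (c : L) : Cpl (Φ c) ↔ Cpl c :=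
  ⟨fun h => by simpa using cpl_map Φ.symm h, cpl_map Φ⟩

theorem good_map (Φ : L ≃o M) {c V : L} (h : Good c V) : Good (Φ c) (Φ V) := by
  obtain ⟨d, h1, h2, h3⟩ := h
  refine ⟨Φ d, cpl_map Φ h1, by rw [← map_inf, h2, map_bot], ?_⟩
  rw [← map_inf, ← map_sup, ← h3]

theorem good_iff (Φ : L ≃o M) (c V : L) : Good (Φ c) (Φ V) ↔ Good c V :=
  ⟨fun h => by simpa using good_map Φ.symm h, good_map Φ⟩

theorem nn_map (Φ : L ≃o M) {Q a : L} {n : ℕ} (h : NN Q a n) : NN (Φ Q) (Φ a) n := by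
  obtain ⟨D, h1, h2, h3, h4⟩ := h
  refine ⟨D.map Φ, by rw [List.length_map, h1], ?_, ?_, ?_⟩
  · intro d hd
    obtain ⟨d', hd', rfl⟩ := List.mem_map.1 hd
    exact Φ.le_iff_le.2 (h2 d' hd')
  · rw [List.pairwise_map]
    refine h3.imp ?_
    intro x y hxy
    rw [← map_inf]
    exact Φ.le_iff_le.2 hxy
  · intro d hd c hc hac hcd
    obtain ⟨d', hd', rfl⟩ := List.mem_map.1 hd
    obtain ⟨c', rfl⟩ := Φ.surjective c
    refine h4 d' hd' c' ((cpl_iff Φ c').1 hc) (Φ.le_iff_le.1 hac) ?_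
    rw [← map_inf] at hcd
    exact Φ.le_iff_le.1 hcd

theorem nn_iff (Φ : L ≃o M) (Q a : L) (n : ℕ) : NN (Φ Q) (Φ a) n ↔ NN Q a n :=
  ⟨fun h => by simpa using nn_map Φ.symm h, nn_map Φ⟩

theorem mark_iff (Φ : L ≃o M) (P Q : L) (n : ℕ) (c : L) :
    Mark (Φ P) (Φ Q) n (Φ c) ↔ Mark P Q n c := by
  unfold Mark
  rw [Φ.surjective.forall]
  refine forall_congr' fun a => ?_
  rw [Φ.isAtom_iff, ← map_inf, Φ.le_iff_le, nn_iff, nn_iff]

theorem tt_iff (Φ : L ≃o M) (V : ℕ → L) (W : ℕ → M) (k : ℕ) : (∀ i ≤ k, W i = Φ (V i)) →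
    ∀ c, TT W k (Φ c) ↔ TT V k c := by
  induction k with
  | zero =>
    intro hW c
    show ¬ Good (Φ c) (W 0) ↔ ¬ Good c (V 0)
    rw [hW 0 le_rfl, good_iff]
  | succ k ih =>
    intro hW c
    have ih' := ih fun i hi => hW i (by omega)
    have e1 : (∃ c', Cpl c' ∧ c' ≤ Φ c ∧ Good c' (W (k + 1)) ∧ TT W k c') ↔
        (∃ c', Cpl c' ∧ c' ≤ c ∧ Good c' (V (k + 1)) ∧ TT V k c') := by
      rw [Φ.surjective.exists]
      refine exists_congr fun c' => ?_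
      rw [cpl_iff, Φ.le_iff_le, hW (k + 1) le_rfl, good_iff, ih']
    have e2 : (∀ c' c'', Cpl c' → Cpl c'' → c' ⊓ c'' = ⊥ → c' ⊔ c'' = Φ c →
        Good c' (W (k + 1)) → TT W k c'') ↔
        (∀ c' c'', Cpl c' → Cpl c'' → c' ⊓ c'' = ⊥ → c' ⊔ c'' = c →
        Good c' (V (k + 1)) → TT V k c'') := by
      rw [Φ.surjective.forall]
      refine forall_congr' fun c' => ?_
      rw [Φ.surjective.forall]
      refine forall_congr' fun c'' => ?_
      rw [cpl_iff, cpl_iff, ← map_inf, ← map_sup, map_eq_bot_iff, Φ.injective.eq_iff,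
        hW (k + 1) le_rfl, good_iff, ih']
    show ((Even k → _) ∧ (¬ Even k → _)) ↔ ((Even k → _) ∧ (¬ Even k → _))
    exact and_congr (imp_congr_right fun _ => e1) (imp_congr_right fun _ => e2)

end

theorem taskF1 : TaskF1 := by
  intro L M _ _ _ _ Φ
  exact ⟨cpl_iff Φ, mark_iff Φ, fun V W k h c => tt_iff Φ V W k h c⟩

end Pool.Agent.H614R3.PI
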